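import Pool.Agent.H2.ST.Targets

/-!
# MP_51eb24_ag, board `st2_modules`, row FNA: symplectic coordinates when all weights are nonzero
-/

set_option autoImplicit false

open MvPolynomial Pool.Agent.H2.ST

namespace Pool.Agent.H13.ST

/-- a polynomial which is not constant is transcendental -/
theorem algInd_of_nonconst {k σ : Type} [Field k] [CharZero k] (f : MvPolynomial σ k)
    (hf : ¬ ∃ c : k, f = C c) : AlgebraicIndependent k (fun _ : Fin 1 => f) := by
  classical
  rw [algebraicIndependent_unique_type_iff]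
  rintro ⟨p, hp0, hp⟩
  apply hf
  have h1 : ∏ r ∈ p.roots.toFinset, (f - C r) = 0 := by
    refine MvPolynomial.funext fun a => ?_
    rw [map_prod, map_zero]
    have h2 : p.eval (eval a f) = 0 := by
      have h3 := congrArg (eval a) hp
      rw [map_zero, Polynomial.aeval_def, Polynomial.hom_eval₂] at h3
      have h4 : (eval a).comp (algebraMap k (MvPolynomial σ k)) = RingHom.id k := by
        ext c
        simp
      rw [h4] at h3
      exact h3
    refine Finset.prod_eq_zero (i := eval a f) ?_ ?_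
    · rw [Multiset.mem_toFinset, Polynomial.mem_roots hp0]
      exact h2
    · rw [map_sub, eval_C, sub_self]
  obtain ⟨r, -, hr⟩ := Finset.prod_eq_zero_iff.1 h1
  exact ⟨r, sub_eq_zero.1 hr⟩

theorem pf_FNA (h1 : T_NPS) (h2 : T_SPG) : T_FNA := by
  intro k _ _ m Γ _ W w π u v c h hw
  have hn := h1 k m Γ W w π u v c h
  obtain ⟨hg, ht⟩ := h2 k m Γ W w π u v c h hn
  have hcen : ∀ f ∈ Cen (act w u v), ∃ a : k, f = C a := by
    intro f hf
    by_contra hcon
    have h3 := ht 1 (fun _ => f) (fun _ => hf) (algInd_of_nonconst f hcon)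
    have h4 : Nat.card {i // w i ≠ 0} = m := by
      rw [Nat.card_congr (Equiv.subtypeUnivEquiv hw), Nat.card_eq_fintype_card, Fintype.card_fin]
    rw [h4] at h3
    omega
  refine ⟨Sum.elim u fun i => (-(c i)⁻¹) • v i, ?_, ?_, ?_, ?_, ?_, ?_⟩
  · intro i
    exact (h.par i (hw i)).hu
  · intro i
    exact Submodule.smul_mem _ _ (h.par i (hw i)).hv
  · intro i j
    rw [Sum.elim_inl, Sum.elim_inr, br_smul]
    by_cases hij : i = j
    · rw [if_pos hij, hij, br_anti, (h.par j (hw j)).vu, smul_neg, neg_smul, neg_neg,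
        MvPolynomial.smul_eq_C_mul, ← C_mul, inv_mul_cancel₀ (h.par j (hw j)).hc, C_1]
    · rw [if_neg hij, h.uv i j (hw i) (hw j) hij, smul_zero]
  · intro i j
    exact h.uu i j (hw i) (hw j)
  · intro i j
    rw [Sum.elim_inr, Sum.elim_inr, br_smul, br_anti, br_smul, h.vv j i (hw j) (hw i), smul_zero,
      neg_zero, smul_zero]
  · intro f
    refine Algebra.adjoin_le ?_ (hg f)
    rintro g (hg' | ⟨i, -, rfl | rfl⟩)
    · obtain ⟨a, rfl⟩ := hcen g hg'
      exact Subalgebra.algebraMap_mem _ a
    · exact Algebra.subset_adjoin ⟨Sum.inl i, rfl⟩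
    · have h3 : v i = (-(c i)) • (Sum.elim u (fun i => (-(c i)⁻¹) • v i) (Sum.inr i)) := by
        rw [Sum.elim_inr, smul_smul, neg_mul_neg, mul_inv_cancel₀ (h.par i (hw i)).hc, one_smul]
      rw [h3]
      exact Subalgebra.smul_mem _ (Algebra.subset_adjoin (Set.mem_range_self (Sum.inr i))) _

end Pool.Agent.H13.ST
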